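import Mathlib

/-!
The Robin Laplacian on locally deformed half-spaces in dimension at least four:
weak smooth deformations create no spectrum below the threshold.
-/

open MeasureTheory Set Metric Filter Topology

noncomputable section

namespace Pool.Agent.Results.MP_ce9a4f_an.NoBoundState

/-- `ℝ^k` with its Euclidean norm. -/
abbrev E (k : ℕ) := EuclideanSpace ℝ (Fin k)

/-- The half-space `H = {x : x_n > 0}` of `ℝ^n`, `n = m + 1`. -/
def halfSpace (m : ℕ) : Set (E (m + 1)) := {x | 0 < x (Fin.last m)}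

/-- The first `m` coordinates `x'` of a point `x = (x', x_n)` of `ℝ^(m+1)`. -/
def hor {m : ℕ} (x : E (m + 1)) : E m := WithLp.toLp 2 (fun i => x (Fin.castSucc i))

/-- The region `{x : x_n > g(x')}` above the graph of `g`. -/
def above {m : ℕ} (g : E m → ℝ) : Set (E (m + 1)) := {x | g (hor x) < x (Fin.last m)}

/-- Lipschitz boundary: near each boundary point, after a linear isometry, `Ω` is the region
above the graph of a Lipschitz function. -/
def HasLipschitzBoundary {m : ℕ} (Ω : Set (E (m + 1))) : Prop :=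
  ∀ x ∈ frontier Ω, ∃ r : ℝ, 0 < r ∧ ∃ R : E (m + 1) ≃ₗᵢ[ℝ] E (m + 1),
    ∃ K : NNReal, ∃ g : E m → ℝ, LipschitzWith K g ∧
      ∀ y ∈ ball x r, (y ∈ Ω ↔ g (hor (R y)) < R y (Fin.last m))

/-- Locally deformed half-spaces of `ℝ^n`, `n = m + 1`: connected open sets with Lipschitz
boundary, equal to `H` outside some ball, and different from `H`. -/
structure IsLocallyDeformedHalfSpace {m : ℕ} (Ω : Set (E (m + 1))) : Prop where
  isOpen : IsOpen Ω
  isConnected : IsConnected Ω
  lipschitzBoundary : HasLipschitzBoundary Ω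
  eq_outside_ball : ∃ (c : E (m + 1)) (r : ℝ), Ω \ ball c r = halfSpace m \ ball c r
  ne_halfSpace : Ω ≠ halfSpace m

/-- Surface measure of dimension `n - 1 = m` in `ℝ^n`: the `m`-dimensional Hausdorff measure,
normalised so that on `ℝ^m` it is Lebesgue measure (see `volume_eq_haus`). -/
def surfaceMeasure (m : ℕ) : Measure (E (m + 1)) :=
  (volume (ball (0 : E m) 1) / μH[(m : ℝ)] (ball (0 : E m) 1)) • μH[(m : ℝ)]

/-- `IsSobolev Ω u G T`: the function `u` lies in `H¹(Ω)`, with weak gradient `G` and boundary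
trace `T`. That is, `(u, G, T)` is a limit in `L²(Ω) × L²(Ω; ℝ^n) × L²(∂Ω)` of triples
`(φ, ∇φ, φ restricted to ∂Ω)` with `φ` a compactly supported `C¹` function on `ℝ^n`. -/
structure IsSobolev {m : ℕ} (Ω : Set (E (m + 1))) (u : E (m + 1) → ℝ)
    (G : E (m + 1) → E (m + 1)) (T : E (m + 1) → ℝ) : Prop where
  memLp_u : MemLp u 2 (volume.restrict Ω)
  memLp_G : MemLp G 2 (volume.restrict Ω)
  memLp_T : MemLp T 2 ((surfaceMeasure m).restrict (frontier Ω))
  approx : ∃ φ : ℕ → E (m + 1) → ℝ, (∀ k, ContDiff ℝ 1 (φ k) ∧ HasCompactSupport (φ k)) ∧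
    Tendsto (fun k => eLpNorm (φ k - u) 2 (volume.restrict Ω)) atTop (𝓝 0) ∧
    Tendsto (fun k => eLpNorm (gradient (φ k) - G) 2 (volume.restrict Ω)) atTop (𝓝 0) ∧
    Tendsto (fun k => eLpNorm (φ k - T) 2 ((surfaceMeasure m).restrict (frontier Ω))) atTop (𝓝 0)

/-- The quadratic form of the Robin Laplacian with parameter `α` on `Ω` is bounded below by `Λ`:
`∫_Ω |∇u|² + α ∫_∂Ω |u|² dσ ≥ Λ ∫_Ω |u|²` for all `u` in `H¹(Ω)`. By the variational
characterisation of the bottom of the spectrum this says that the spectrum is in `[Λ, ∞)`. -/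
def RobinFormBoundedBelow {m : ℕ} (Ω : Set (E (m + 1))) (α Λ : ℝ) : Prop :=
  ∀ (u : E (m + 1) → ℝ) (G : E (m + 1) → E (m + 1)) (T : E (m + 1) → ℝ), IsSobolev Ω u G T →
    Λ * ∫ x in Ω, u x ^ 2 ≤
      (∫ x in Ω, ‖G x‖ ^ 2) + α * ∫ x in frontier Ω, T x ^ 2 ∂(surfaceMeasure m)

/-- the linear isometry -/
def J (m : ℕ) : WithLp 2 (E m × ℝ) ≃ₗᵢ[ℝ] E (m+1) where
  toFun p := WithLp.toLp 2 (Fin.snoc (α := fun _ => ℝ) (fun i => p.fst i) p.snd)
  invFun x := WithLp.toLp 2 (WithLp.toLp 2 (fun i => x (Fin.castSucc i)), x (Fin.last m))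
  left_inv p := by
    apply (WithLp.equiv 2 _).injective
    refine Prod.ext ?_ ?_
    · ext i
      simp
    · simp
  right_inv x := by
    ext i
    refine Fin.lastCases ?_ (fun j => ?_) i <;> simp
  map_add' p q := by
    ext i
    refine Fin.lastCases ?_ (fun j => ?_) i <;> simp
  map_smul' c p := by
    ext i
    refine Fin.lastCases ?_ (fun j => ?_) i <;> simp
  norm_map' p := by
    simp only [LinearEquiv.coe_mk, LinearMap.coe_mk, AddHom.coe_mk]
    rw [EuclideanSpace.norm_eq, WithLp.prod_norm_eq_of_L2, Fin.sum_univ_castSucc]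
    congr 1
    simp [EuclideanSpace.norm_eq, Real.sq_sqrt, Finset.sum_nonneg, sq_nonneg]

/-- `(x', t) ↦ x` as a continuous linear equivalence -/
def L (m : ℕ) : (E m × ℝ) ≃L[ℝ] E (m+1) :=
  (WithLp.prodContinuousLinearEquiv 2 ℝ (E m) ℝ).symm.trans (J m).toContinuousLinearEquiv

lemma L_apply (m : ℕ) (p : E m × ℝ) : L m p = J m (WithLp.toLp 2 p) := rfl

lemma L_mp (m : ℕ) : MeasurePreserving (L m) := by
  have h1 := WithLp.volume_preserving_toLp (E m) ℝ
  have h2 := (J m).measurePreserving
  exact h2.comp h1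

@[simp] lemma L_last (m : ℕ) (p : E m × ℝ) : L m p (Fin.last m) = p.2 := by
  simp [L_apply, J]

@[simp] lemma L_castSucc (m : ℕ) (p : E m × ℝ) (i : Fin m) : L m p (Fin.castSucc i) = p.1 i := by
  simp [L_apply, J]

lemma L_norm_sq (m : ℕ) (p : E m × ℝ) : ‖L m p‖ ^ 2 = ‖p.1‖ ^ 2 + p.2 ^ 2 := by
  rw [L_apply, LinearIsometryEquiv.norm_map, WithLp.prod_norm_sq_eq_of_L2]
  simp

/-- Euler identity -/
lemma integral_euler {m : ℕ} {h : E m → ℝ} (hh : ContDiff ℝ 1 h) (hc : HasCompactSupport h) :
    ∫ x, (fderiv ℝ h x x + m * h x) = 0 := by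
  have hcont : Continuous (fderiv ℝ h) := hh.continuous_fderiv (by norm_num)
  have key : ∀ i : Fin m, ∫ x : E m, x i * fderiv ℝ h x (EuclideanSpace.single i 1)
      = - ∫ x, h x := by
    intro i
    have hpr : ∀ x : E m, HasFDerivAt (fun x : E m => x i)
        (EuclideanSpace.proj i : E m →L[ℝ] ℝ) x := fun x =>
      (EuclideanSpace.proj i : E m →L[ℝ] ℝ).hasFDerivAt
    have hfd : ∀ x : E m, fderiv ℝ (fun x : E m => x i) x = (EuclideanSpace.proj i : E m →L[ℝ] ℝ) :=
      fun x => (hpr x).fderiv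
    have hci : Continuous (fun x : E m => x i) := (EuclideanSpace.proj i : E m →L[ℝ] ℝ).continuous
    have := integral_mul_fderiv_eq_neg_fderiv_mul_of_integrable (μ := (volume : Measure (E m)))
      (f := fun x : E m => x i) (g := h) (v := EuclideanSpace.single i 1) ?_ ?_ ?_ ?_ ?_
    · rw [this]
      congr 1
      apply integral_congr_ae
      filter_upwards with x
      rw [hfd]
      simp
    · simp only [hfd]
      simp
      exact hh.continuous.integrable_of_hasCompactSupport hc
    · apply Continuous.integrable_of_hasCompactSupport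
      · exact hci.mul (hcont.clm_apply continuous_const)
      · apply HasCompactSupport.mul_left
        exact (hc.fderiv ℝ).comp_left (g := fun T : E m →L[ℝ] ℝ => T (EuclideanSpace.single i 1)) (by simp)
    · apply Continuous.integrable_of_hasCompactSupport
      · exact hci.mul hh.continuous
      · exact hc.mul_left
    · intro x _
      exact (hpr x).differentiableAt
    · intro x _
      exact hh.differentiable (by norm_num) x
  have hsum : ∀ x : E m, fderiv ℝ h x x = ∑ i, x i * fderiv ℝ h x (EuclideanSpace.single i 1) := by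
    intro x
    have hx : ∀ y : E m, y = ∑ i, y i • (EuclideanSpace.single i (1:ℝ) : E m) := by
      intro y
      ext j
      simp [Finset.sum_apply, Pi.single_apply]
    have : fderiv ℝ h x x = fderiv ℝ h x (∑ i, x i • (EuclideanSpace.single i (1:ℝ) : E m)) := by
      rw [← hx x]
    rw [this, map_sum]
    simp
  have hci : ∀ i : Fin m, Continuous (fun x : E m => x i) := fun i =>
    (EuclideanSpace.proj i : E m →L[ℝ] ℝ).continuous
  have hint : ∀ i : Fin m, Integrable (fun x : E m => x i * fderiv ℝ h x (EuclideanSpace.single i 1)) := by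
    intro i
    apply Continuous.integrable_of_hasCompactSupport
    · exact (hci i).mul (hcont.clm_apply continuous_const)
    · apply HasCompactSupport.mul_left
      exact (hc.fderiv ℝ).comp_left (g := fun T : E m →L[ℝ] ℝ => T (EuclideanSpace.single i 1)) (by simp)
  have hinth : Integrable h := hh.continuous.integrable_of_hasCompactSupport hc
  simp_rw [hsum]
  rw [integral_add (integrable_finsetSum _ (fun i _ => hint i)) (hinth.const_mul _),
    integral_finsetSum _ (fun i _ => hint i), integral_const_mul]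
  simp [key]

/-- radial coefficient of the horizontal vector field -/
def rho {m : ℕ} (x : E m) : ℝ := -(1 + ‖x‖ ^ 2)⁻¹

/-- divergence of `x ↦ rho x • x` -/
def dv {m : ℕ} (x : E m) : ℝ := m * rho x + 2 * ‖x‖ ^ 2 / (1 + ‖x‖ ^ 2) ^ 2

lemma one_add_pos {m : ℕ} (x : E m) : 0 < 1 + ‖x‖ ^ 2 := by positivity

lemma rho_contDiff {m : ℕ} : ContDiff ℝ 1 (rho : E m → ℝ) := by
  unfold rho
  apply ContDiff.neg
  apply ContDiff.inv
  · exact contDiff_const.add (contDiff_norm_sq ℝ)
  · intro x
    exact (one_add_pos x).ne'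

lemma dv_cont {m : ℕ} : Continuous (dv : E m → ℝ) := by
  unfold dv
  apply Continuous.add
  · exact continuous_const.mul rho_contDiff.continuous
  · apply Continuous.div
    · fun_prop
    · fun_prop
    · intro x
      have := one_add_pos x
      positivity

lemma rho_fderiv {m : ℕ} (x : E m) : fderiv ℝ (rho : E m → ℝ) x x
    = 2 * ‖x‖ ^ 2 / (1 + ‖x‖ ^ 2) ^ 2 := by
  have h1 : HasFDerivAt (fun y : E m => ‖y‖ ^ 2) (2 • (innerSL ℝ x)) x :=
    (hasStrictFDerivAt_norm_sq x).hasFDerivAt
  have h2 : HasFDerivAt (fun y : E m => 1 + ‖y‖ ^ 2) (2 • (innerSL ℝ x)) x :=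
    h1.const_add 1
  have h3 := ((hasDerivAt_inv (one_add_pos x).ne').comp_hasFDerivAt x h2).neg
  have h4 : fderiv ℝ (rho : E m → ℝ) x = _ := HasFDerivAt.fderiv h3
  rw [h4]
  simp
  ring

lemma tangential {m : ℕ} {w : E m → ℝ} (hw : ContDiff ℝ 1 w) (hc : HasCompactSupport w) :
    ∫ x, (fderiv ℝ w x (rho x • x) + w x * dv x) = 0 := by
  have h1 : ContDiff ℝ 1 (fun x => w x * rho x) := hw.mul rho_contDiff
  have h2 : HasCompactSupport (fun x => w x * rho x) := hc.mul_right
  have := integral_euler h1 h2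
  rw [← this]
  apply integral_congr_ae
  filter_upwards with x
  have h3 : fderiv ℝ (fun x => w x * rho x) x = w x • fderiv ℝ rho x + rho x • fderiv ℝ w x :=
    fderiv_mul (hw.differentiable (by norm_num) x) (rho_contDiff.differentiable (by norm_num) x)
  rw [h3]
  simp [rho_fderiv, dv]
  ring

lemma key_identity {m : ℕ} {W : E m × ℝ → ℝ} (hW : ContDiff ℝ 1 W) (hc : HasCompactSupport W)
    {c : E m → ℝ} (hcc : Continuous c) :
    ∫ p in univ ×ˢ Ioi (0:ℝ), (fderiv ℝ W p (rho p.1 • p.1, c p.1) + W p * dv p.1)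
      = - ∫ x, c x * W (x, 0) := by
  have hcont : Continuous (fderiv ℝ W) := hW.continuous_fderiv (by norm_num)
  have hcf : HasCompactSupport (fderiv ℝ W) := hc.fderiv ℝ
  have hsplit : ∀ p : E m × ℝ, fderiv ℝ W p (rho p.1 • p.1, c p.1) + W p * dv p.1
      = (fderiv ℝ W p (rho p.1 • p.1, 0) + W p * dv p.1) + c p.1 * fderiv ℝ W p (0, 1) := by
    intro p
    have : ((rho p.1 • p.1, c p.1) : E m × ℝ) = (rho p.1 • p.1, 0) + c p.1 • ((0:E m), (1:ℝ)) := by
      simp
    rw [this, map_add, map_smul]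
    simp
    ring
  have hi1 : Integrable (fun p : E m × ℝ => fderiv ℝ W p (rho p.1 • p.1, 0) + W p * dv p.1) := by
    apply Continuous.integrable_of_hasCompactSupport
    · apply Continuous.add
      · apply hcont.clm_apply
        exact ((rho_contDiff.continuous.comp continuous_fst).smul continuous_fst).prodMk continuous_const
      · exact hW.continuous.mul (dv_cont.comp continuous_fst)
    · apply HasCompactSupport.add
      · apply hcf.mono
        intro p hp
        simp only [Function.mem_support] at hp ⊢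
        intro h0
        apply hp
        rw [h0]; simp
      · exact hc.mul_right
  have hi2 : Integrable (fun p : E m × ℝ => c p.1 * fderiv ℝ W p (0, 1)) := by
    apply Continuous.integrable_of_hasCompactSupport
    · exact (hcc.comp continuous_fst).mul (hcont.clm_apply continuous_const)
    · apply HasCompactSupport.mul_left
      apply hcf.mono
      intro p hp
      simp only [Function.mem_support] at hp ⊢
      intro h0
      apply hp
      rw [h0]; simp
  simp_rw [hsplit]
  rw [integral_add hi1.integrableOn hi2.integrableOn]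
  -- first part
  have e1 : ∫ p in (univ : Set (E m)) ×ˢ Ioi (0:ℝ), (fderiv ℝ W p (rho p.1 • p.1, 0) + W p * dv p.1) = 0 := by
    rw [Measure.volume_eq_prod, ← Measure.prod_restrict, Measure.restrict_univ]
    rw [integral_prod_symm]
    · apply integral_eq_zero_of_ae
      filter_upwards with t
      have hcl : IsClosedEmbedding (fun x : E m => (x, t)) :=
        ⟨IsEmbedding.of_comp (f := fun x : E m => (x, t)) (g := Prod.fst) (by fun_prop)
          continuous_fst .id, by
          have : range (fun x : E m => (x, t)) = univ ×ˢ {t} := by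
            ext p
            simp only [mem_range, mem_prod, mem_univ, mem_singleton_iff, true_and]
            exact ⟨fun ⟨y, hy⟩ => by rw [← hy], fun h => ⟨p.1, by rw [← h]⟩⟩
          rw [this]
          exact isClosed_univ.prod isClosed_singleton⟩
      have hw1 : ContDiff ℝ 1 (fun x : E m => W (x, t)) :=
        hW.comp (contDiff_id.prodMk contDiff_const)
      have hw2 : HasCompactSupport (fun x : E m => W (x, t)) := hc.comp_isClosedEmbedding hcl
      refine Eq.trans ?_ (tangential hw1 hw2)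
      apply integral_congr_ae
      filter_upwards with x
      have hd : HasFDerivAt (fun x : E m => W (x, t))
          ((fderiv ℝ W (x, t)).comp (ContinuousLinearMap.inl ℝ (E m) ℝ)) x := by
        have h1 : HasFDerivAt W (fderiv ℝ W (x, t)) (x, t) :=
          (hW.differentiable (by norm_num) _).hasFDerivAt
        have h2 : HasFDerivAt (fun x : E m => (x, t)) (ContinuousLinearMap.inl ℝ (E m) ℝ) x :=
          hasFDerivAt_prodMk_left x t
        exact h1.comp x h2
      rw [hd.fderiv]
      rw [ContinuousLinearMap.comp_apply, ContinuousLinearMap.inl_apply]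
    · have := hi1.integrableOn (s := (univ : Set (E m)) ×ˢ Ioi (0:ℝ))
      rw [IntegrableOn, Measure.volume_eq_prod, ← Measure.prod_restrict, Measure.restrict_univ] at this
      exact this
  have e2 : ∫ p in (univ : Set (E m)) ×ˢ Ioi (0:ℝ), (c p.1 * fderiv ℝ W p (0, 1)) = - ∫ x, c x * W (x, 0) := by
    rw [Measure.volume_eq_prod, setIntegral_prod _ (hi2.integrableOn), Measure.restrict_univ, ← integral_neg]
    apply integral_congr_ae
    filter_upwards with x
    rw [integral_const_mul]
    have hcl : IsClosedEmbedding (fun t : ℝ => (x, t)) :=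
        ⟨IsEmbedding.of_comp (f := fun t : ℝ => (x, t)) (g := Prod.snd) (by fun_prop)
          continuous_snd .id, by
          have : range (fun t : ℝ => (x, t)) = {x} ×ˢ univ := by
            ext p
            simp only [mem_range, mem_prod, mem_univ, mem_singleton_iff, and_true]
            exact ⟨fun ⟨y, hy⟩ => by rw [← hy], fun h => ⟨p.2, by rw [← h]⟩⟩
          rw [this]
          exact isClosed_singleton.prod isClosed_univ⟩
    have hw1 : ContDiff ℝ 1 (fun t : ℝ => W (x, t)) :=
      hW.comp (contDiff_const.prodMk contDiff_id)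
    have hw2 : HasCompactSupport (fun t : ℝ => W (x, t)) := hc.comp_isClosedEmbedding hcl
    have := HasCompactSupport.integral_Ioi_deriv_eq hw1 hw2 0
    have hd : ∀ t : ℝ, deriv (fun t : ℝ => W (x, t)) t = fderiv ℝ W (x, t) (0, 1) := by
      intro t
      have h1 : HasFDerivAt W (fderiv ℝ W (x, t)) (x, t) :=
        (hW.differentiable (by norm_num) _).hasFDerivAt
      have h2 : HasDerivAt (fun t : ℝ => (x, t)) ((0:E m), (1:ℝ)) t :=
        (hasDerivAt_const t x).prodMk (hasDerivAt_id t)
      exact (h1.comp_hasDerivAt t h2).deriv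
    simp_rw [hd] at this
    rw [this]
    ring
  rw [e1, e2, zero_add]

@[simp] lemma hor_L {m : ℕ} (p : E m × ℝ) : hor (L m p) = p.1 := by
  ext i
  simp [hor]

lemma L_hor {m : ℕ} (x : E (m+1)) : L m (hor x, x (Fin.last m)) = x := by
  ext i
  refine Fin.lastCases ?_ (fun j => ?_) i
  · simp
  · simp [hor]

lemma hor_cont {m : ℕ} : Continuous (hor : E (m+1) → E m) := by
  unfold hor
  fun_prop

/-- shear homeomorphism -/
def shear {m : ℕ} (g : E m → ℝ) (hg : Continuous g) : (E m × ℝ) ≃ₜ (E m × ℝ) where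
  toFun p := (p.1, p.2 + g p.1)
  invFun p := (p.1, p.2 - g p.1)
  left_inv p := by simp
  right_inv p := by simp
  continuous_toFun := by fun_prop
  continuous_invFun := by fun_prop

/-- flattening homeomorphism -/
def Psi {m : ℕ} (g : E m → ℝ) (hg : Continuous g) : (E m × ℝ) ≃ₜ E (m+1) :=
  (shear g hg).trans (L m).toHomeomorph

lemma Psi_apply {m : ℕ} (g : E m → ℝ) (hg : Continuous g) (p : E m × ℝ) :
    Psi g hg p = L m (p.1, p.2 + g p.1) := rfl

lemma shear_mp {m : ℕ} (g : E m → ℝ) (hg : Continuous g) : MeasurePreserving (shear g hg) := by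
  have := MeasurePreserving.skew_product (μa := (volume : Measure (E m))) (μb := volume)
    (μc := (volume : Measure ℝ)) (μd := volume) (f := id) (MeasurePreserving.id _)
    (g := fun x t => t + g x) (by
      apply Continuous.measurable
      fun_prop) (by
      filter_upwards with x
      exact (measurePreserving_add_right volume (g x)).map_eq)
  exact this

lemma Psi_mp {m : ℕ} (g : E m → ℝ) (hg : Continuous g) : MeasurePreserving (Psi g hg) :=
  (L_mp m).comp (shear_mp g hg)

lemma Psi_preimage {m : ℕ} (g : E m → ℝ) (hg : Continuous g) :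
    Psi g hg ⁻¹' (above g) = univ ×ˢ Ioi (0:ℝ) := by
  ext p
  simp [Psi_apply, above]

lemma setIntegral_above {m : ℕ} (g : E m → ℝ) (hg : Continuous g) (f : E (m+1) → ℝ) :
    ∫ x in above g, f x = ∫ p in (univ : Set (E m)) ×ˢ Ioi (0:ℝ), f (Psi g hg p) := by
  rw [← Psi_preimage g hg]
  exact ((Psi_mp g hg).setIntegral_preimage_emb (Psi g hg).measurableEmbedding f _).symm

lemma main_ineq {m : ℕ} (hm : 3 ≤ m) {g : E m → ℝ} (hg : ContDiff ℝ 1 g) {a ε : ℝ}
    (h3 : 2 * a * ε + ε ^ 2 ≤ 3) {u : E (m+1) → ℝ}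
    (hu : ContDiff ℝ 1 u) (hc : HasCompactSupport u) :
    ∫ x : E m, (a + ε / (1 + ‖x‖ ^ 2) ^ 2 + fderiv ℝ g x (rho x • x)) * u (L m (x, g x)) ^ 2
      ≤ (∫ x in above g, ‖fderiv ℝ u x‖ ^ 2) + a ^ 2 * ∫ x in above g, u x ^ 2 := by
  set Ps := Psi g hg.continuous with hPs
  have hfu : Continuous (fderiv ℝ u) := hu.continuous_fderiv (by norm_num)
  have hfg : Continuous (fderiv ℝ g) := hg.continuous_fderiv (by norm_num)
  have i1 : Integrable (fun x => ‖fderiv ℝ u x‖ ^ 2) := by
    apply Continuous.integrable_of_hasCompactSupport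
    · fun_prop
    · exact (hc.fderiv ℝ).comp_left (g := fun T => ‖T‖ ^ 2) (by simp)
  have i2 : Integrable (fun x => u x ^ 2) := by
    apply Continuous.integrable_of_hasCompactSupport
    · exact hu.continuous.pow 2
    · exact hc.comp_left (g := fun t : ℝ => t ^ 2) (by simp)
  rw [← integral_const_mul, ← integral_add i1.integrableOn (i2.const_mul _).integrableOn,
    setIntegral_above g hg.continuous]
  -- the function W
  set W : E m × ℝ → ℝ := fun p => u (L m (p.1, p.2 + g p.1)) ^ 2 with hWdef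
  have hsm : ContDiff ℝ 1 (fun p : E m × ℝ => L m (p.1, p.2 + g p.1)) := by
    apply (L m).contDiff.comp
    exact contDiff_fst.prodMk (contDiff_snd.add (hg.comp contDiff_fst))
  have hW : ContDiff ℝ 1 W := (hu.comp hsm).pow 2
  have hWc : HasCompactSupport W := by
    have h1 : HasCompactSupport (u ∘ Ps) := hc.comp_homeomorph Ps
    exact h1.comp_left (g := fun t : ℝ => t ^ 2) (by simp)
  set c : E m → ℝ := fun x => -(a + ε / (1 + ‖x‖ ^ 2) ^ 2 + fderiv ℝ g x (rho x • x)) with hcdef
  have hcc : Continuous c := by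
    apply Continuous.neg
    apply Continuous.add
    · apply continuous_const.add
      apply Continuous.div continuous_const (by fun_prop)
      intro x
      have := one_add_pos x
      positivity
    · exact hfg.clm_apply (rho_contDiff.continuous.smul continuous_id)
  have key := key_identity hW hWc hcc
  have hlhs : ∫ x : E m, (a + ε / (1 + ‖x‖ ^ 2) ^ 2 + fderiv ℝ g x (rho x • x)) * u (L m (x, g x)) ^ 2
      = - ∫ x, c x * W (x, 0) := by
    rw [← integral_neg]
    apply integral_congr_ae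
    filter_upwards with x
    simp only [hcdef, hWdef, zero_add]
    ring
  rw [hlhs, ← key]
  apply integral_mono_ae
  · apply Integrable.integrableOn
    apply Continuous.integrable_of_hasCompactSupport
    · apply Continuous.add
      · apply (hW.continuous_fderiv (by norm_num)).clm_apply
        exact ((rho_contDiff.continuous.comp continuous_fst).smul continuous_fst).prodMk
          (hcc.comp continuous_fst)
      · exact hW.continuous.mul (dv_cont.comp continuous_fst)
    · apply HasCompactSupport.add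
      · apply (hWc.fderiv ℝ).mono
        intro p hp
        simp only [Function.mem_support] at hp ⊢
        intro h0
        apply hp
        rw [h0]; simp
      · exact hWc.mul_right
  · apply Integrable.integrableOn
    apply Continuous.integrable_of_hasCompactSupport
    · have h1 := Ps.continuous
      have h2 := hu.continuous
      fun_prop
    · apply HasCompactSupport.add
      · have : HasCompactSupport ((fun x => ‖fderiv ℝ u x‖ ^ 2) ∘ Ps) :=
          HasCompactSupport.comp_homeomorph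
            ((hc.fderiv ℝ).comp_left (g := fun T => ‖T‖ ^ 2) (by simp)) Ps
        exact this
      · have : HasCompactSupport ((fun x => a ^ 2 * u x ^ 2) ∘ Ps) :=
          HasCompactSupport.comp_homeomorph
            (hc.comp_left (g := fun t => a ^ 2 * t ^ 2) (by simp)) Ps
        exact this
  · filter_upwards with p
    -- derivative of W
    have hd : fderiv ℝ W p (rho p.1 • p.1, c p.1)
        = 2 * u (L m (p.1, p.2 + g p.1)) * fderiv ℝ u (L m (p.1, p.2 + g p.1))
          (L m (rho p.1 • p.1, -(a + ε / (1 + ‖p.1‖ ^ 2) ^ 2))) := by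
      have hg1 : HasFDerivAt (fun q : E m × ℝ => g q.1)
          ((fderiv ℝ g p.1).comp (ContinuousLinearMap.fst ℝ (E m) ℝ)) p :=
        HasFDerivAt.comp p (hg.differentiable (by norm_num) p.1).hasFDerivAt hasFDerivAt_fst
      have hg2 : HasFDerivAt (fun q : E m × ℝ => q.2 + g q.1)
          (ContinuousLinearMap.snd ℝ (E m) ℝ +
            (fderiv ℝ g p.1).comp (ContinuousLinearMap.fst ℝ (E m) ℝ)) p :=
        hasFDerivAt_snd.add hg1
      have hg3 := (L m).hasFDerivAt.comp p ((hasFDerivAt_fst (p := p)).prodMk hg2)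
      have hu1 : HasFDerivAt u (fderiv ℝ u (L m (p.1, p.2 + g p.1))) (L m (p.1, p.2 + g p.1)) :=
        (hu.differentiable (by norm_num) _).hasFDerivAt
      have hg4 := (hu1.comp p hg3).pow 2
      have hg5 : fderiv ℝ W p = _ := hg4.fderiv
      rw [hg5]
      simp only [smul_apply, ContinuousLinearMap.comp_apply,
        ContinuousLinearMap.prod_apply, add_apply,
        ContinuousLinearMap.coe_fst', ContinuousLinearMap.coe_snd', smul_eq_mul, hcdef]
      have : -(a + ε / (1 + ‖p.1‖ ^ 2) ^ 2 + fderiv ℝ g p.1 (rho p.1 • p.1))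
          + fderiv ℝ g p.1 (rho p.1 • p.1) = -(a + ε / (1 + ‖p.1‖ ^ 2) ^ 2) := by ring
      rw [this]
      simp
    rw [hd]
    set D := fderiv ℝ u (L m (p.1, p.2 + g p.1)) with hD
    set v := L m (rho p.1 • p.1, -(a + ε / (1 + ‖p.1‖ ^ 2) ^ 2)) with hv
    set y := u (L m (p.1, p.2 + g p.1)) with hy
    have e1 : W p = y ^ 2 := rfl
    have e2 : u (Ps p) = y := rfl
    have e3 : fderiv ℝ u (Ps p) = D := rfl
    rw [e1, e2, e3]
    have hDv : |D v| ≤ ‖D‖ * ‖v‖ := D.le_opNorm v
    have hvn : ‖v‖ ^ 2 = (rho p.1) ^ 2 * ‖p.1‖ ^ 2 + (a + ε / (1 + ‖p.1‖ ^ 2) ^ 2) ^ 2 := by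
      rw [hv, L_norm_sq]
      simp [norm_smul, mul_pow]
      ring
    have hineq : ‖v‖ ^ 2 + dv p.1 ≤ a ^ 2 := by
      rw [hvn]
      unfold dv rho
      set q := 1 + ‖p.1‖ ^ 2 with hq
      have hq1 : 1 ≤ q := by rw [hq]; nlinarith [sq_nonneg ‖p.1‖]
      have hr : ‖p.1‖ ^ 2 = q - 1 := by rw [hq]; ring
      rw [hr]
      have hq0 : 0 < q := by linarith
      have hm' : (3:ℝ) ≤ m := by exact_mod_cast hm
      have : a ^ 2 - ((-q⁻¹) ^ 2 * (q - 1) + (a + ε / q ^ 2) ^ 2 + (m * -q⁻¹ + 2 * (q - 1) / q ^ 2))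
          = (m * q - 3 * (q - 1) - 2 * a * ε - ε ^ 2 / q ^ 2) / q ^ 2 := by
        field_simp
        ring
      have h2 : ε ^ 2 / q ^ 2 ≤ ε ^ 2 := by
        apply div_le_self (sq_nonneg _)
        nlinarith
      have h4 : 3 * q ≤ m * q := by nlinarith
      have h5 : 0 ≤ (m * q - 3 * (q - 1) - 2 * a * ε - ε ^ 2 / q ^ 2) / q ^ 2 := by
        apply div_nonneg _ (sq_nonneg _)
        nlinarith
      linarith
    have h6 : 2 * y * D v ≤ ‖D‖ ^ 2 + y ^ 2 * ‖v‖ ^ 2 := by
      have h7 : y * D v ≤ |y| * (‖D‖ * ‖v‖) := by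
        calc y * D v ≤ |y * D v| := le_abs_self _
          _ = |y| * |D v| := abs_mul _ _
          _ ≤ |y| * (‖D‖ * ‖v‖) := mul_le_mul_of_nonneg_left hDv (abs_nonneg _)
      have h8 : 0 ≤ (‖D‖ - |y| * ‖v‖) ^ 2 := sq_nonneg _
      have h9 : (‖D‖ - |y| * ‖v‖) ^ 2 = ‖D‖ ^ 2 + y ^ 2 * ‖v‖ ^ 2 - 2 * (|y| * (‖D‖ * ‖v‖)) := by
        rw [← sq_abs y]; ring
      linarith
    have h10 : y ^ 2 * (‖v‖ ^ 2 + dv p.1) ≤ y ^ 2 * a ^ 2 :=
      mul_le_mul_of_nonneg_left hineq (sq_nonneg y)
    linarith

lemma haus_haar (m : ℕ) : (μH[(m:ℝ)] : Measure (E m)).IsAddHaarMeasure := by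
  have := isAddHaarMeasure_hausdorffMeasure (E := E m)
  simpa using this

lemma volume_eq_haus (m : ℕ) : (volume : Measure (E m))
    = (volume (ball (0 : E m) 1) / μH[(m:ℝ)] (ball (0 : E m) 1)) • μH[(m:ℝ)] := by
  have := haus_haar m
  have h1 := Measure.isAddLeftInvariant_eq_smul (volume : Measure (E m)) (μH[(m:ℝ)] : Measure (E m))
  set k := (volume : Measure (E m)).addHaarScalarFactor (μH[(m:ℝ)] : Measure (E m)) with hk
  have h2 : volume (ball (0 : E m) 1) = k * μH[(m:ℝ)] (ball (0 : E m) 1) := by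
    conv_lhs => rw [h1]
    rfl
  have h3 : μH[(m:ℝ)] (ball (0 : E m) 1) ≠ 0 := (measure_ball_pos _ _ one_pos).ne'
  have h4 : μH[(m:ℝ)] (ball (0 : E m) 1) ≠ ⊤ := measure_ball_lt_top.ne
  rw [h2, mul_div_assoc, ENNReal.div_self h3 h4, mul_one]
  exact h1

/-- the graph parametrization -/
def Gam {m : ℕ} (g : E m → ℝ) (x : E m) : E (m+1) := L m (x, g x)

lemma Gam_cont {m : ℕ} {g : E m → ℝ} (hg : Continuous g) : Continuous (Gam g) := by
  unfold Gam
  fun_prop

lemma Gam_dist {m : ℕ} (g : E m → ℝ) (x y : E m) :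
    dist (Gam g x) (Gam g y) ^ 2 = dist x y ^ 2 + (g x - g y) ^ 2 := by
  rw [dist_eq_norm, dist_eq_norm, Gam, Gam, ← map_sub, L_norm_sq]
  simp

lemma Gam_lip {m : ℕ} {g : E m → ℝ} {δ : NNReal} (hg : LipschitzWith δ g) :
    LipschitzWith (1 + δ) (Gam g) := by
  apply LipschitzWith.of_dist_le_mul
  intro x y
  have h1 := Gam_dist g x y
  have h2 : |g x - g y| ≤ δ * dist x y := by
    have := hg.dist_le_mul x y
    rwa [Real.dist_eq] at this
  have h3 : (g x - g y) ^ 2 ≤ (δ * dist x y) ^ 2 := by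
    rw [← sq_abs]
    exact pow_le_pow_left₀ (abs_nonneg _) h2 2
  have h4 : (0:ℝ) ≤ δ := δ.2
  push_cast
  apply le_of_sq_le_sq _ (by positivity)
  rw [h1]
  nlinarith [sq_nonneg (dist x y), mul_nonneg h4 (sq_nonneg (dist x y))]

lemma Gam_lip_out {m : ℕ} {g : E m → ℝ} {S : Set (E m)} (hg : ∀ x ∈ S, g x = 0) :
    LipschitzOnWith 1 (Gam g) S := by
  apply LipschitzOnWith.of_dist_le_mul
  intro x hx y hy
  have h1 := Gam_dist g x y
  rw [hg x hx, hg y hy] at h1
  simp at h1
  simp
  rw [h1]

lemma frontier_above {m : ℕ} {g : E m → ℝ} (hg : Continuous g) :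
    frontier (above g) ⊆ range (Gam g) := by
  intro x hx
  have hl : Continuous (fun x : E (m+1) => x (Fin.last m)) :=
    (EuclideanSpace.proj (Fin.last m) : E (m+1) →L[ℝ] ℝ).continuous
  have h := frontier_lt_subset_eq (hg.comp hor_cont) hl hx
  refine ⟨hor x, ?_⟩
  have h2 : g (hor x) = x (Fin.last m) := h
  rw [Gam, h2, L_hor]

lemma surf_le {m : ℕ} {g : E m → ℝ} {δ : NNReal} (hg : LipschitzWith δ g) {B : Set (E m)}
    (h0 : ∀ x ∈ Bᶜ, g x = 0) :
    (surfaceMeasure m).restrict (frontier (above g)) ≤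
      Measure.map (Gam g) (((1 + δ : NNReal) ^ m) • (volume.restrict B) + volume.restrict Bᶜ) := by
  have hc := Gam_cont hg.continuous
  rw [Measure.le_iff]
  intro s hs
  rw [Measure.restrict_apply hs, Measure.map_apply hc.measurable hs]
  have hpre : MeasurableSet (Gam g ⁻¹' s) := hc.measurable hs
  have hsub : s ∩ frontier (above g) ⊆
      (Gam g '' (Gam g ⁻¹' s ∩ B)) ∪ (Gam g '' (Gam g ⁻¹' s ∩ Bᶜ)) := by
    rintro x ⟨hx1, hx2⟩
    obtain ⟨y, rfl⟩ := frontier_above hg.continuous hx2
    by_cases hy : y ∈ B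
    · left; exact ⟨y, ⟨hx1, hy⟩, rfl⟩
    · right; exact ⟨y, ⟨hx1, hy⟩, rfl⟩
  have hm0 : (0:ℝ) ≤ m := Nat.cast_nonneg m
  have h1 := ((Gam_lip hg).lipschitzOnWith (s := Gam g ⁻¹' s ∩ B)).hausdorffMeasure_image_le hm0
  have h2 := ((Gam_lip_out h0).mono (inter_subset_right :
    Gam g ⁻¹' s ∩ Bᶜ ⊆ Bᶜ)).hausdorffMeasure_image_le hm0
  set c := (volume (ball (0 : E m) 1) / μH[(m:ℝ)] (ball (0 : E m) 1)) with hcd
  have hv : ∀ t : Set (E m), volume t = c * μH[(m:ℝ)] t := by
    intro t
    conv_lhs => rw [volume_eq_haus m]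
    rfl
  calc surfaceMeasure m (s ∩ frontier (above g))
      = c * μH[(m:ℝ)] (s ∩ frontier (above g)) := rfl
    _ ≤ c * (μH[(m:ℝ)] (Gam g '' (Gam g ⁻¹' s ∩ B)) + μH[(m:ℝ)] (Gam g '' (Gam g ⁻¹' s ∩ Bᶜ))) := by
        gcongr
        exact (measure_mono hsub).trans (measure_union_le _ _)
    _ ≤ c * (((1 + δ : NNReal) : ENNReal) ^ (m:ℝ) * μH[(m:ℝ)] (Gam g ⁻¹' s ∩ B)
          + ((1 : NNReal) : ENNReal) ^ (m:ℝ) * μH[(m:ℝ)] (Gam g ⁻¹' s ∩ Bᶜ)) := by
        gcongr
    _ = ((1 + δ : NNReal) : ENNReal) ^ m * volume (Gam g ⁻¹' s ∩ B) + volume (Gam g ⁻¹' s ∩ Bᶜ) := by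
        rw [hv, hv]
        simp
        ring
    _ = _ := by
        rw [Measure.add_apply, Measure.smul_apply, Measure.restrict_apply hpre,
          Measure.restrict_apply hpre]
        simp [ENNReal.smul_def]

lemma Gam_emb {m : ℕ} {g : E m → ℝ} (hg : Continuous g) : IsClosedEmbedding (Gam g) := by
  have h1 : IsClosedEmbedding (fun x : E m => (x, g x)) := by
    refine ⟨IsEmbedding.of_comp (f := fun x : E m => (x, g x)) (g := Prod.fst)
      (continuous_id.prodMk hg) continuous_fst .id, ?_⟩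
    have : range (fun x : E m => (x, g x)) = {p : E m × ℝ | p.2 = g p.1} := by
      ext p
      constructor
      · rintro ⟨y, rfl⟩; rfl
      · intro h
        have h' : p.2 = g p.1 := h
        exact ⟨p.1, Prod.ext rfl h'.symm⟩
    rw [this]
    exact isClosed_eq continuous_snd (hg.comp continuous_fst)
  exact (L m).toHomeomorph.isClosedEmbedding.comp h1

lemma integrable_Gam {m : ℕ} {g : E m → ℝ} (hg : Continuous g) {f : E (m+1) → ℝ}
    (hf : Continuous f) (hc : HasCompactSupport f) : Integrable (fun x => f (Gam g x)) volume :=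
  (hf.comp (Gam_cont hg)).integrable_of_hasCompactSupport (hc.comp_isClosedEmbedding (Gam_emb hg))

/-- surface integral of squares of `C^1_c` functions is finite on the graph -/
lemma integrable_frontier {m : ℕ} {g : E m → ℝ} (hg : Continuous g) {δ : NNReal} (B : Set (E m))
    {f : E (m+1) → ℝ} (hf : Continuous f) (hc : HasCompactSupport f) :
    Integrable f (Measure.map (Gam g)
      (((1 + δ : NNReal) ^ m) • (volume.restrict B) + volume.restrict Bᶜ)) := by
  have hcont := Gam_cont hg
  rw [integrable_map_measure hf.aestronglyMeasurable hcont.measurable.aemeasurable]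
  have h2 : Integrable (f ∘ Gam g) volume := integrable_Gam hg hf hc
  rw [integrable_add_measure]
  constructor
  · exact (h2.restrict).smul_measure_nnreal
  · exact h2.restrict

theorem form_bound {m : ℕ} (hm : 3 ≤ m) {g : E m → ℝ} (hg : ContDiff ℝ 1 g) {δ : NNReal}
    (hl : LipschitzWith δ g) {R : ℝ} (hs : tsupport g ⊆ closedBall 0 R)
    {a ε : ℝ} (ha : 0 < a) (hε : 0 ≤ ε) (h3 : 2 * a * ε + ε ^ 2 ≤ 3)
    (hsmall : a * ((1 + δ) ^ m - 1) + δ / 2 ≤ ε / (1 + R ^ 2) ^ 2)
    {u : E (m+1) → ℝ} (hu : ContDiff ℝ 1 u) (hc : HasCompactSupport u) :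
    a * ∫ x in frontier (above g), u x ^ 2 ∂(surfaceMeasure m) ≤
      (∫ x in above g, ‖fderiv ℝ u x‖ ^ 2) + a ^ 2 * ∫ x in above g, u x ^ 2 := by
  refine le_trans ?_ (main_ineq hm hg h3 hu hc)
  set B := closedBall (0 : E m) R with hBd
  have h0 : ∀ x ∈ Bᶜ, g x = 0 := by
    intro x hx
    exact image_eq_zero_of_notMem_tsupport (fun h => hx (hs h))
  have h0' : ∀ x ∈ Bᶜ, fderiv ℝ g x = 0 := by
    intro x hx
    have h1 : x ∉ tsupport g := fun h => hx (hs h)
    have h2 : x ∉ tsupport (fderiv ℝ g) := fun h => h1 (tsupport_fderiv_subset ℝ h)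
    exact image_eq_zero_of_notMem_tsupport h2
  have hu2 : Continuous (fun x => u x ^ 2) := hu.continuous.pow 2
  have hc2 : HasCompactSupport (fun x => u x ^ 2) :=
    hc.comp_left (g := fun t : ℝ => t ^ 2) (by simp)
  have hcont := Gam_cont hl.continuous
  have i1 := integrable_frontier hl.continuous (δ := δ) B hu2 hc2
  have step1 : ∫ x in frontier (above g), u x ^ 2 ∂(surfaceMeasure m) ≤
      ∫ x, u x ^ 2 ∂(Measure.map (Gam g)
      (((1 + δ : NNReal) ^ m) • (volume.restrict B) + volume.restrict Bᶜ)) := by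
    apply integral_mono_measure (surf_le hl h0)
    · filter_upwards with x
      positivity
    · exact i1
  have hcl : Integrable (fun x => u (Gam g x) ^ 2) := integrable_Gam hl.continuous hu2 hc2
  rw [integral_map hcont.measurable.aemeasurable hu2.aestronglyMeasurable,
    integral_add_measure (hcl.restrict).smul_measure_nnreal hcl.restrict,
    integral_smul_nnreal_measure] at step1
  have hBm : MeasurableSet B := measurableSet_closedBall
  have hfg : Continuous (fderiv ℝ g) := hg.continuous_fderiv (by norm_num)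
  have hwi : Integrable (fun x : E m => (a + ε / (1 + ‖x‖ ^ 2) ^ 2 + fderiv ℝ g x (rho x • x))
      * u (L m (x, g x)) ^ 2) := by
    apply Continuous.integrable_of_hasCompactSupport
    · apply Continuous.mul
      · apply Continuous.add
        · apply continuous_const.add
          apply Continuous.div continuous_const (by fun_prop)
          intro x
          have := one_add_pos x
          positivity
        · exact hfg.clm_apply (rho_contDiff.continuous.smul continuous_id)
      · exact hu2.comp hcont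
    · apply HasCompactSupport.mul_left
      exact hc2.comp_isClosedEmbedding (Gam_emb hl.continuous)
  rw [← integral_add_compl hBm hwi]
  have hpt1 : ∀ x ∈ B, a * (1 + δ : ℝ) ^ m ≤ a + ε / (1 + ‖x‖ ^ 2) ^ 2 + fderiv ℝ g x (rho x • x) := by
    intro x hx
    have hx' : ‖x‖ ≤ R := by simpa [hBd] using hx
    have e1 : ε / (1 + R ^ 2) ^ 2 ≤ ε / (1 + ‖x‖ ^ 2) ^ 2 := by
      gcongr
    have e2 : |fderiv ℝ g x (rho x • x)| ≤ δ / 2 := by
      have := norm_fderiv_le_of_lipschitz ℝ hl (x₀ := x)
      calc |fderiv ℝ g x (rho x • x)| ≤ ‖fderiv ℝ g x‖ * ‖rho x • x‖ := (fderiv ℝ g x).le_opNorm _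
        _ ≤ δ * (1 / 2) := by
            gcongr
            rw [norm_smul, rho]
            have hq := one_add_pos x
            rw [norm_neg, norm_inv, Real.norm_of_nonneg hq.le, inv_mul_le_iff₀ hq]
            nlinarith [sq_nonneg (‖x‖ - 1)]
        _ = δ / 2 := by ring
    have := abs_le.mp e2
    linarith
  have hpt2 : ∀ x ∈ Bᶜ, a ≤ a + ε / (1 + ‖x‖ ^ 2) ^ 2 + fderiv ℝ g x (rho x • x) := by
    intro x hx
    rw [h0' x hx]
    have : 0 ≤ ε / (1 + ‖x‖ ^ 2) ^ 2 := by positivity
    simp
    exact this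
  have j1 : a * ((1 + δ) ^ m * ∫ x in B, u (Gam g x) ^ 2) ≤
      ∫ x in B, (a + ε / (1 + ‖x‖ ^ 2) ^ 2 + fderiv ℝ g x (rho x • x)) * u (L m (x, g x)) ^ 2 := by
    rw [← mul_assoc, ← integral_const_mul]
    apply setIntegral_mono_on (hcl.integrableOn.const_mul _) hwi.integrableOn hBm
    intro x hx
    exact mul_le_mul_of_nonneg_right (hpt1 x hx) (sq_nonneg _)
  have j2 : a * (∫ x in Bᶜ, u (Gam g x) ^ 2) ≤
      ∫ x in Bᶜ, (a + ε / (1 + ‖x‖ ^ 2) ^ 2 + fderiv ℝ g x (rho x • x)) * u (L m (x, g x)) ^ 2 := by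
    rw [← integral_const_mul]
    apply setIntegral_mono_on (hcl.integrableOn.const_mul _) hwi.integrableOn hBm.compl
    intro x hx
    exact mul_le_mul_of_nonneg_right (hpt2 x hx) (sq_nonneg _)
  calc a * ∫ x in frontier (above g), u x ^ 2 ∂(surfaceMeasure m)
      ≤ a * (((1 + δ : NNReal) ^ m • ∫ x in B, u (Gam g x) ^ 2) + ∫ x in Bᶜ, u (Gam g x) ^ 2) := by
        gcongr
    _ = a * ((1 + δ) ^ m * ∫ x in B, u (Gam g x) ^ 2) + a * (∫ x in Bᶜ, u (Gam g x) ^ 2) := by
        rw [NNReal.smul_def]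
        push_cast
        simp
        ring
    _ ≤ _ := add_le_add j1 j2

/-! ### Passing to `H¹(Ω)` -/

lemma sq_toReal {X F : Type*} [MeasurableSpace X] {μ : Measure X} [NormedAddCommGroup F]
    {f : X → F} (hf : MemLp f 2 μ) : ∫ x, ‖f x‖ ^ 2 ∂μ = (eLpNorm f 2 μ).toReal ^ 2 := by
  rw [hf.eLpNorm_eq_integral_rpow_norm (by norm_num) (by norm_num)]
  have h : ∀ x, ‖f x‖ ^ (2 : ENNReal).toReal = ‖f x‖ ^ 2 := by
    intro x
    simp
  simp_rw [h]
  have h0 : 0 ≤ ∫ x, ‖f x‖ ^ 2 ∂μ := integral_nonneg (fun x => by positivity)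
  rw [ENNReal.toReal_ofReal (by positivity)]
  simp only [ENNReal.toReal_ofNat]
  rw [← Real.rpow_natCast, ← Real.rpow_mul h0]
  norm_num

lemma tendsto_sq {X F : Type*} [MeasurableSpace X] {μ : Measure X} [NormedAddCommGroup F]
    {f : ℕ → X → F} {f0 : X → F} (hf : ∀ k, MemLp (f k) 2 μ) (hf0 : MemLp f0 2 μ)
    (h : Tendsto (fun k => eLpNorm (f k - f0) 2 μ) atTop (𝓝 0)) :
    Tendsto (fun k => ∫ x, ‖f k x‖ ^ 2 ∂μ) atTop (𝓝 (∫ x, ‖f0 x‖ ^ 2 ∂μ)) := by
  simp_rw [sq_toReal (hf _), sq_toReal hf0]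
  apply Tendsto.pow
  have h1 := (Lp.tendsto_Lp_iff_tendsto_eLpNorm'' f hf f0 hf0).mpr h
  have h2 := h1.norm
  simpa [Lp.norm_toLp] using h2

lemma norm_gradient_eq {m : ℕ} (φ : E (m+1) → ℝ) (x : E (m+1)) :
    ‖gradient φ x‖ = ‖fderiv ℝ φ x‖ := by
  rw [gradient, LinearIsometryEquiv.norm_map]

lemma continuous_gradient {m : ℕ} {φ : E (m+1) → ℝ} (h : ContDiff ℝ 1 φ) :
    Continuous (gradient φ) := by
  have h1 : Continuous (fderiv ℝ φ) := h.continuous_fderiv (by norm_num)
  exact (InnerProductSpace.toDual ℝ (E (m+1))).symm.continuous.comp h1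

lemma compact_gradient {m : ℕ} {φ : E (m+1) → ℝ} (h : HasCompactSupport φ) :
    HasCompactSupport (gradient φ) := by
  exact (h.fderiv ℝ).comp_left (g := fun T => (InnerProductSpace.toDual ℝ (E (m+1))).symm T)
    (by simp)

/-- compactly supported continuous functions are square integrable on the boundary -/
lemma memLp_frontier {m : ℕ} {g : E m → ℝ} {δ : NNReal} (hg : LipschitzWith δ g)
    {φ : E (m+1) → ℝ} (h1 : Continuous φ) (h2 : HasCompactSupport φ) :
    MemLp φ 2 ((surfaceMeasure m).restrict (frontier (above g))) := by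
  rw [memLp_two_iff_integrable_sq h1.aestronglyMeasurable]
  have h3 := surf_le hg (B := univ) (by simp)
  refine Integrable.mono_measure ?_ h3
  exact integrable_frontier hg.continuous univ (h1.pow 2)
    (h2.comp_left (g := fun t : ℝ => t ^ 2) (by simp))

/-- sanity check: compactly supported `C¹` functions are in `H¹`, with their classical gradient
and their restriction to the boundary as trace -/
lemma isSobolev_of_contDiff {m : ℕ} {g : E m → ℝ} {δ : NNReal} (hg : LipschitzWith δ g)
    {φ : E (m+1) → ℝ} (h1 : ContDiff ℝ 1 φ) (h2 : HasCompactSupport φ) :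
    IsSobolev (above g) φ (gradient φ) φ where
  memLp_u := (h1.continuous.memLp_of_hasCompactSupport h2).restrict _
  memLp_G := ((continuous_gradient h1).memLp_of_hasCompactSupport (compact_gradient h2)).restrict _
  memLp_T := memLp_frontier hg h1.continuous h2
  approx := ⟨fun _ => φ, fun _ => ⟨h1, h2⟩, by simp, by simp, by simp⟩

/-- main estimate on `H¹(Ω)` -/
theorem bounded_below {m : ℕ} (hm : 3 ≤ m) {g : E m → ℝ} (hg : ContDiff ℝ 1 g) {δ : NNReal}
    (hl : LipschitzWith δ g) {R : ℝ} (hs : tsupport g ⊆ closedBall 0 R)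
    {α ε : ℝ} (hα : α < 0) (hε : 0 ≤ ε) (h3 : 2 * (-α) * ε + ε ^ 2 ≤ 3)
    (hsmall : (-α) * ((1 + δ) ^ m - 1) + δ / 2 ≤ ε / (1 + R ^ 2) ^ 2) :
    RobinFormBoundedBelow (above g) α (-α ^ 2) := by
  intro u G T hu
  obtain ⟨φ, hφ, t1, t2, t3⟩ := hu.approx
  have m1 : ∀ k, MemLp (φ k) 2 (volume.restrict (above g)) := fun k =>
    ((hφ k).1.continuous.memLp_of_hasCompactSupport (hφ k).2).restrict _
  have m2 : ∀ k, MemLp (gradient (φ k)) 2 (volume.restrict (above g)) := fun k =>
    ((continuous_gradient (hφ k).1).memLp_of_hasCompactSupport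
      (compact_gradient (hφ k).2)).restrict _
  have m3 : ∀ k, MemLp (φ k) 2 ((surfaceMeasure m).restrict (frontier (above g))) := fun k =>
    memLp_frontier hl (hφ k).1.continuous (hφ k).2
  have l1 := tendsto_sq m1 hu.memLp_u t1
  have l2 := tendsto_sq m2 hu.memLp_G t2
  have l3 := tendsto_sq m3 hu.memLp_T t3
  have hk : ∀ k, -α ^ 2 * ∫ x in above g, ‖φ k x‖ ^ 2 ≤
      (∫ x in above g, ‖gradient (φ k) x‖ ^ 2)
        + α * ∫ x in frontier (above g), ‖φ k x‖ ^ 2 ∂(surfaceMeasure m) := by
    intro k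
    have := form_bound hm hg hl hs (a := -α) (by linarith) hε h3 hsmall (hφ k).1 (hφ k).2
    simp only [norm_gradient_eq, Real.norm_eq_abs, sq_abs]
    linarith
  have := le_of_tendsto_of_tendsto' (l1.const_mul (-α ^ 2)) (l2.add (l3.const_mul α)) hk
  simpa only [Real.norm_eq_abs, sq_abs] using this

/-! ### The regions above small graphs are locally deformed half-spaces -/

lemma above_isOpen {m : ℕ} {g : E m → ℝ} (hg : Continuous g) : IsOpen (above g) := by
  have hl : Continuous (fun x : E (m+1) => x (Fin.last m)) :=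
    (EuclideanSpace.proj (Fin.last m) : E (m+1) →L[ℝ] ℝ).continuous
  exact isOpen_lt (hg.comp hor_cont) hl

lemma above_isConnected {m : ℕ} {g : E m → ℝ} (hg : Continuous g) : IsConnected (above g) := by
  have h1 : above g = Psi g hg '' ((univ : Set (E m)) ×ˢ Ioi (0:ℝ)) := by
    rw [← Psi_preimage g hg, image_preimage_eq _ (Psi g hg).surjective]
  rw [h1]
  apply IsConnected.image _ _ (Psi g hg).continuous.continuousOn
  exact isConnected_univ.prod isConnected_Ioi

lemma norm_sq_eq {m : ℕ} (x : E (m+1)) : ‖x‖ ^ 2 = ‖hor x‖ ^ 2 + (x (Fin.last m)) ^ 2 := by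
  conv_lhs => rw [← L_hor x]
  rw [L_norm_sq]

theorem isLDHS {m : ℕ} {g : E m → ℝ} {δ : NNReal} (hl : LipschitzWith δ g)
    (hc : HasCompactSupport g) {x0 : E m} (hx0 : g x0 ≠ 0) :
    IsLocallyDeformedHalfSpace (above g) where
  isOpen := above_isOpen hl.continuous
  isConnected := above_isConnected hl.continuous
  lipschitzBoundary := by
    intro x _
    exact ⟨1, one_pos, LinearIsometryEquiv.refl ℝ _, δ, g, hl, fun y _ => Iff.rfl⟩
  eq_outside_ball := by
    obtain ⟨M, hM⟩ := hc.exists_bound_of_continuous hl.continuous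
    obtain ⟨R, hR⟩ := hc.isCompact.isBounded.subset_closedBall (0 : E m)
    have hM0 : 0 ≤ M := (norm_nonneg _).trans (hM 0)
    set R' := max R 0 with hR'
    have hR0 : 0 ≤ R' := le_max_right _ _
    refine ⟨0, R' + M + 1, ?_⟩
    ext x
    simp only [Set.mem_sdiff, mem_ball, dist_zero_right, not_lt]
    constructor
    · rintro ⟨h1, h2⟩
      refine ⟨?_, h2⟩
      have h1' : g (hor x) < x (Fin.last m) := h1
      show 0 < x (Fin.last m)
      by_contra hneg
      push Not at hneg
      have h3 : g (hor x) ≠ 0 := by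
        intro h0
        rw [h0] at h1'
        linarith
      have h4 : hor x ∈ closedBall (0 : E m) R := hR (subset_tsupport _ h3)
      have h5 : ‖hor x‖ ≤ R' := by
        have : ‖hor x‖ ≤ R := by simpa using h4
        exact this.trans (le_max_left _ _)
      have h6 := norm_sq_eq x
      have h7 : |g (hor x)| ≤ M := hM _
      have h8 := abs_le.mp h7
      nlinarith [norm_nonneg (hor x), norm_nonneg x]
    · rintro ⟨h1, h2⟩
      refine ⟨?_, h2⟩
      have h1' : 0 < x (Fin.last m) := h1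
      show g (hor x) < x (Fin.last m)
      by_contra hneg
      push Not at hneg
      have h3 : g (hor x) ≠ 0 := by
        intro h0
        rw [h0] at hneg
        linarith
      have h4 : hor x ∈ closedBall (0 : E m) R := hR (subset_tsupport _ h3)
      have h5 : ‖hor x‖ ≤ R' := by
        have : ‖hor x‖ ≤ R := by simpa using h4
        exact this.trans (le_max_left _ _)
      have h6 := norm_sq_eq x
      have h7 : |g (hor x)| ≤ M := hM _
      have h8 := abs_le.mp h7
      nlinarith [norm_nonneg (hor x), norm_nonneg x]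
  ne_halfSpace := by
    intro h
    rcases lt_or_gt_of_ne hx0 with h1 | h1
    · have h2 : L m (x0, 0) ∈ above g := by
        simp [above, h1]
      rw [h] at h2
      simp [halfSpace] at h2
    · have h2 : L m (x0, g x0) ∈ halfSpace m := by
        simp [halfSpace, h1]
      rw [← h] at h2
      simp [above] at h2

/-- Weak deformations: for every compactly supported `C¹` function `g0` on `ℝ^m`, `m ≥ 3`, and
every `α < 0`, the regions above the graphs of `t * g0` have no spectrum below `-α²` once `|t|` is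
small. -/
theorem weak_deformation {m : ℕ} (hm : 3 ≤ m) {α : ℝ} (hα : α < 0) {g0 : E m → ℝ}
    (hg : ContDiff ℝ 1 g0) (hc : HasCompactSupport g0) :
    ∃ t0 : ℝ, 0 < t0 ∧ ∀ t : ℝ, |t| ≤ t0 →
      RobinFormBoundedBelow (above (fun x => t * g0 x)) α (-α ^ 2) := by
  obtain ⟨C, hC⟩ := ContDiff.lipschitzWith_of_hasCompactSupport hc hg (by norm_num)
  obtain ⟨R, hR⟩ := hc.isCompact.isBounded.subset_closedBall (0 : E m)
  set ε : ℝ := 1 / (1 - α) with hεd
  have hε : 0 < ε := by
    rw [hεd]; apply div_pos one_pos; linarith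
  have hε1 : ε * (1 - α) = 1 := by
    rw [hεd]; field_simp
    have : (1 - α) ≠ 0 := by linarith
    field_simp
  have h3 : 2 * (-α) * ε + ε ^ 2 ≤ 3 := by
    have : ε ≤ 1 := by nlinarith
    nlinarith
  have hlim : Tendsto (fun t : ℝ => (-α) * ((1 + t * C) ^ m - 1) + (t * C) / 2) (𝓝 0) (𝓝 0) := by
    have : Continuous (fun t : ℝ => (-α) * ((1 + t * C) ^ m - 1) + (t * C) / 2) := by fun_prop
    have h := this.tendsto 0
    simpa using h
  have hpos : 0 < ε / (1 + R ^ 2) ^ 2 := by positivity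
  have hev := (hlim.eventually (gt_mem_nhds hpos))
  obtain ⟨t0, ht0, hball⟩ := Metric.eventually_nhds_iff.mp hev
  refine ⟨t0 / 2, by positivity, ?_⟩
  intro t ht
  have hlt : dist |t| 0 < t0 := by
    rw [Real.dist_eq, sub_zero, abs_abs]
    linarith
  have hsm := (hball hlt).le
  have hlip : LipschitzWith (‖t‖₊ * C) (fun x => t * g0 x) := by
    apply LipschitzWith.of_dist_le_mul
    intro x y
    have h1 := hC.dist_le_mul x y
    rw [Real.dist_eq] at h1 ⊢
    rw [← mul_sub, abs_mul]
    push_cast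
    rw [Real.norm_eq_abs, mul_assoc]
    exact mul_le_mul_of_nonneg_left h1 (abs_nonneg t)
  apply bounded_below hm (contDiff_const.mul hg) hlip (R := R) ?_ hα hε.le h3
  · push_cast
    simpa using hsm
  · refine Subset.trans ?_ hR
    exact closure_mono (fun x hx => by
      simp only [Function.mem_support] at hx ⊢
      exact right_ne_zero_of_mul hx)

theorem result : ∀ m : ℕ, 3 ≤ m → ∀ α : ℝ, α < 0 →
    ∃ g : E m → ℝ, ContDiff ℝ (⊤ : ℕ∞) g ∧ HasCompactSupport g ∧
      IsLocallyDeformedHalfSpace (above g) ∧ RobinFormBoundedBelow (above g) α (-α ^ 2) := by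
  intro m hm α hα
  let f : ContDiffBump (0 : E m) := ⟨1, 2, one_pos, one_lt_two⟩
  have hf : ContDiff ℝ (⊤ : ℕ∞) (fun x => f x) := f.contDiff
  have hf1 : ContDiff ℝ 1 (fun x => f x) := f.contDiff
  have hc : HasCompactSupport (fun x => f x) := f.hasCompactSupport
  obtain ⟨t0, ht0, hb⟩ := weak_deformation hm hα hf1 hc
  refine ⟨fun x => t0 * f x, contDiff_const.mul hf, hc.mul_left, ?_, hb t0 (abs_of_pos ht0).le⟩
  obtain ⟨C, hC⟩ := ContDiff.lipschitzWith_of_hasCompactSupport
    (hc.mul_left (f := fun _ => t0)) (contDiff_const.mul hf1) (by norm_num)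
  refine isLDHS hC hc.mul_left (x0 := 0) ?_
  have : f 0 = 1 := f.one_of_mem_closedBall (by simp [f.rIn_pos.le])
  simp [this, ht0.ne']

end Pool.Agent.Results.MP_ce9a4f_an.NoBoundState
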